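import Pool.Agent.W91.BH.Stm2

set_option autoImplicit false

open MeasureTheory
open scoped ENNReal ContDiff

namespace Pool.Agent.W238.BH

open Pool.Agent.W91.BH

lemma level_le {n : ℕ} (hn : 0 < n) {P Q : Idx n} (h : cube n Q ⊆ cube n P) : P.1 ≤ Q.1 := by
  by_contra hlt
  rw [not_le] at hlt
  obtain ⟨d, hd⟩ := Nat.exists_eq_add_of_lt hlt
  have hk : (0 : ℝ) < 2 ^ Q.1 := by positivity
  set x0 : E n := WithLp.toLp 2 (fun i => (Q.2 i : ℝ) / (2 : ℝ) ^ Q.1) with hx0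
  set x1 : E n := WithLp.toLp 2 (fun i => ((Q.2 i : ℝ) + 1 / 2) / (2 : ℝ) ^ Q.1) with hx1
  have m0 : x0 ∈ cube n Q := by
    intro i
    simp only [hx0]
    rw [mul_div_cancel₀ _ hk.ne', Int.floor_intCast]
  have m1 : x1 ∈ cube n Q := by
    intro i
    simp only [hx1]
    rw [mul_div_cancel₀ _ hk.ne', Int.floor_eq_iff]
    constructor <;> linarith
  have i : Fin n := ⟨0, hn⟩
  have h0 := h m0 i
  have h1 := h m1 i
  have h2 := Int.abs_sub_lt_one_of_floor_eq_floor (h1.trans h0.symm)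
  have h3 : (2 : ℝ) ^ P.1 * x1 i - (2 : ℝ) ^ P.1 * x0 i = 2 ^ d := by
    simp only [hx0, hx1]
    rw [hd, pow_succ, pow_add]
    field_simp
    ring
  rw [h3] at h2
  have h4 : (1 : ℝ) ≤ 2 ^ d := one_le_pow₀ (by norm_num)
  rw [abs_of_pos (by positivity)] at h2
  linarith

lemma core (n m k j l : ℕ) (p e B C' : ℝ) (hp : 0 < p) (he : 0 ≤ e) (hen : e ≤ n)
    (hm : 2 * (n : ℝ) ≤ p * m) (hB : 0 < B) (hC' : 1 ≤ C') (hlk : l ≤ k) :
    (pw m k j) ^ p * (((2 : ℝ) ^ k * rad k j C') ^ n * (B * (1 / 2) ^ l + rad k j C') ^ e)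
      ≤ (2 * C') ^ n * (B + 2 * C') ^ e * ((1 / 2 : ℝ) ^ l) ^ e := by
  have hhk : (0 : ℝ) < (1 / 2) ^ k := by positivity
  have hhj : (0 : ℝ) < (1 / 2) ^ j := by positivity
  have hhl : (0 : ℝ) < (1 / 2) ^ l := by positivity
  have hkl : (1 / 2 : ℝ) ^ k ≤ (1 / 2) ^ l :=
    pow_le_pow_of_le_one (by norm_num) (by norm_num) hlk
  have h2k : (2 : ℝ) ^ k * (1 / 2) ^ k = 1 := by rw [← mul_pow]; norm_num
  have hr : 0 < rad k j C' := by unfold rad; positivity
  rw [mul_assoc ((2 * C') ^ n), ← Real.mul_rpow (by positivity) hhl.le]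
  by_cases hkj : k ≤ j
  · have hjk : (1 / 2 : ℝ) ^ j ≤ (1 / 2) ^ k :=
      pow_le_pow_of_le_one (by norm_num) (by norm_num) hkj
    have h1 : rad k j C' ≤ 2 * C' * (1 / 2) ^ k := by unfold rad; nlinarith
    have h2 : (2 : ℝ) ^ k * rad k j C' ≤ 2 * C' := by
      calc (2 : ℝ) ^ k * rad k j C' ≤ 2 ^ k * (2 * C' * (1 / 2) ^ k) :=
            mul_le_mul_of_nonneg_left h1 (by positivity)
        _ = 2 * C' * ((2 : ℝ) ^ k * (1 / 2) ^ k) := by ring
        _ = 2 * C' := by rw [h2k, mul_one]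
    have h3 : B * (1 / 2) ^ l + rad k j C' ≤ (B + 2 * C') * (1 / 2) ^ l := by nlinarith
    unfold pw
    rw [if_pos hkj, Real.one_rpow, one_mul]
    exact mul_le_mul (pow_le_pow_left₀ (by positivity) h2 n)
      (Real.rpow_le_rpow (by positivity) h3 he) (by positivity) (by positivity)
  · have hjk : j ≤ k := (not_le.1 hkj).le
    set q : ℝ := (1 / 2 : ℝ) ^ (k - j) with hq
    have hq0 : 0 < q := by positivity
    have hq1 : q ≤ 1 := pow_le_one₀ (by norm_num) (by norm_num)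
    have hqj : q * (1 / 2) ^ j = (1 / 2) ^ k := by
      rw [hq, ← pow_add]
      congr 1
      omega
    have hjk' : (1 / 2 : ℝ) ^ k ≤ (1 / 2) ^ j :=
      pow_le_pow_of_le_one (by norm_num) (by norm_num) hjk
    have h1 : rad k j C' ≤ 2 * C' * (1 / 2) ^ j := by unfold rad; nlinarith
    have h1q : rad k j C' * q ≤ 2 * C' * (1 / 2) ^ k := by
      rw [← hqj]
      nlinarith
    have h2 : (2 : ℝ) ^ k * rad k j C' * q ≤ 2 * C' := by
      calc (2 : ℝ) ^ k * rad k j C' * q = 2 ^ k * (rad k j C' * q) := by ring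
        _ ≤ 2 ^ k * (2 * C' * (1 / 2) ^ k) := mul_le_mul_of_nonneg_left h1q (by positivity)
        _ = 2 * C' * ((2 : ℝ) ^ k * (1 / 2) ^ k) := by ring
        _ = 2 * C' := by rw [h2k, mul_one]
    have h3 : (B * (1 / 2) ^ l + rad k j C') * q ≤ (B + 2 * C') * (1 / 2) ^ l := by
      have : B * (1 / 2) ^ l * q ≤ B * (1 / 2) ^ l := mul_le_of_le_one_right (by positivity) hq1
      nlinarith
    have hpw : (pw m k j) ^ p ≤ q ^ n * q ^ e := by
      unfold pw
      rw [if_neg hkj, ← hq, ← Real.rpow_natCast, ← Real.rpow_mul hq0.le, ← Real.rpow_natCast,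
        ← Real.rpow_add hq0]
      exact Real.rpow_le_rpow_of_exponent_ge hq0 hq1 (by nlinarith)
    calc (pw m k j) ^ p * (((2 : ℝ) ^ k * rad k j C') ^ n * (B * (1 / 2) ^ l + rad k j C') ^ e)
        ≤ (q ^ n * q ^ e) * (((2 : ℝ) ^ k * rad k j C') ^ n *
            (B * (1 / 2) ^ l + rad k j C') ^ e) :=
          mul_le_mul_of_nonneg_right hpw (by positivity)
      _ = ((2 : ℝ) ^ k * rad k j C' * q) ^ n * (((B * (1 / 2) ^ l + rad k j C') * q) ^ e) := by
          rw [mul_pow _ q, Real.mul_rpow (by positivity) hq0.le]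
          ring
      _ ≤ (2 * C') ^ n * ((B + 2 * C') * (1 / 2) ^ l) ^ e :=
          mul_le_mul (pow_le_pow_left₀ (by positivity) h2 n)
            (Real.rpow_le_rpow (by positivity) h3 he) (by positivity) (by positivity)

open Classical in
theorem geo : S_OVL → S_GEO := by
  intro hO n N α p e C C' K μ hn hα hp he hen hape hN hG hC'
  obtain ⟨hprob, -, hC, hgr⟩ := hG
  obtain ⟨B, hB, hovl⟩ := hO n
  set w : ℝ := (2 : ℝ) ^ (-(α * p)) with hw
  have hw0 : 0 < w := by positivity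
  have hw1 : w < 1 := Real.rpow_lt_one_of_one_lt_of_neg (by norm_num) (by nlinarith [mul_pos hα hp])
  have hwk : ∀ k : ℕ, (2 : ℝ) ^ (-((k : ℝ) * (α * p))) = w ^ k := by
    intro k
    rw [hw, ← Real.rpow_natCast, ← Real.rpow_mul (by norm_num)]
    congr 1
    ring
  set A1 : ℝ := B * C * ((2 * C') ^ n * (B + 2 * C') ^ e) with hA1
  have hA10 : 0 < A1 := by positivity
  refine ⟨A1 / (1 - w), div_pos hA10 (by linarith), ?_⟩
  intro j G P hP
  set S := G.filter (fun Q => cube n Q ⊆ cube n P) with hS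
  have hlev : ∀ Q ∈ S, P.1 ≤ Q.1 := fun Q hQ => level_le hn (Finset.mem_filter.1 hQ).2
  -- one level
  have hone : ∀ k, P.1 ≤ k →
      ∑ Q ∈ S.filter (fun Q => Q.1 = k), (2 : ℝ) ^ (-((Q.1 : ℝ) * (α * p))) *
        ((pw (n + N + 1) Q.1 j) ^ p * μ.real (Metric.closedBall (ctr n Q) (rad Q.1 j C')))
      ≤ w ^ k * (A1 * ((1 / 2 : ℝ) ^ P.1) ^ e) := by
    intro k hk
    have hpw0 : 0 ≤ (pw (n + N + 1) k j) ^ p := by
      apply Real.rpow_nonneg
      unfold pw
      split_ifs <;> positivity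
    have hr : 0 < rad k j C' := by unfold rad; positivity
    have hr1 : (1 / 2 : ℝ) ^ k ≤ rad k j C' := by
      unfold rad
      have : (0 : ℝ) < (1 / 2) ^ k := by positivity
      have : (0 : ℝ) < (1 / 2) ^ j := by positivity
      nlinarith
    have e1 : ∑ Q ∈ S.filter (fun Q => Q.1 = k), (2 : ℝ) ^ (-((Q.1 : ℝ) * (α * p))) *
        ((pw (n + N + 1) Q.1 j) ^ p * μ.real (Metric.closedBall (ctr n Q) (rad Q.1 j C')))
        = w ^ k * ((pw (n + N + 1) k j) ^ p * ∑ Q ∈ S.filter (fun Q => Q.1 = k),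
          μ.real (Metric.closedBall (ctr n Q) (rad k j C'))) := by
      rw [Finset.mul_sum, Finset.mul_sum]
      refine Finset.sum_congr rfl fun Q hQ => ?_
      rw [(Finset.mem_filter.1 hQ).2, hwk]
    have e2 : S.filter (fun Q => Q.1 = k) =
        G.filter (fun Q => Q.1 = k ∧ cube n Q ⊆ cube n P) := by
      rw [hS, Finset.filter_filter]
      refine Finset.filter_congr fun Q _ => ?_
      exact and_comm
    have e3 := hovl G P k (rad k j C') μ hr1 hk
    have e4 : μ.real (Metric.closedBall (ctr n P) (B * (1 / 2) ^ P.1 + rad k j C')) ≤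
        C * (B * (1 / 2) ^ P.1 + rad k j C') ^ e := by
      rw [measureReal_def]
      exact ENNReal.toReal_le_of_le_ofReal (by positivity)
        (hgr _ _ (by positivity))
    rw [e1, e2]
    refine mul_le_mul_of_nonneg_left ?_ (by positivity)
    have hcore := core n (n + N + 1) k j P.1 p e B C' hp he hen (by push_cast; exact hN) hB hC' hk
    calc (pw (n + N + 1) k j) ^ p * ∑ Q ∈ G.filter (fun Q => Q.1 = k ∧ cube n Q ⊆ cube n P),
          μ.real (Metric.closedBall (ctr n Q) (rad k j C'))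
        ≤ (pw (n + N + 1) k j) ^ p * (B * ((2 : ℝ) ^ k * rad k j C') ^ n *
            (C * (B * (1 / 2) ^ P.1 + rad k j C') ^ e)) := by
          refine mul_le_mul_of_nonneg_left (e3.trans ?_) hpw0
          exact mul_le_mul_of_nonneg_left e4 (by positivity)
      _ = B * C * ((pw (n + N + 1) k j) ^ p * (((2 : ℝ) ^ k * rad k j C') ^ n *
            (B * (1 / 2) ^ P.1 + rad k j C') ^ e)) := by ring
      _ ≤ B * C * ((2 * C') ^ n * (B + 2 * C') ^ e * ((1 / 2 : ℝ) ^ P.1) ^ e) :=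
          mul_le_mul_of_nonneg_left hcore (by positivity)
      _ = A1 * ((1 / 2 : ℝ) ^ P.1) ^ e := by rw [hA1]; ring
  -- all levels
  rw [← Finset.sum_fiberwise_of_maps_to (s := S) (t := S.image Prod.fst) (g := Prod.fst)
    (fun Q hQ => Finset.mem_image_of_mem _ hQ)]
  have h1 : ∑ k ∈ S.image Prod.fst, ∑ Q ∈ S with Q.1 = k, (2 : ℝ) ^ (-((Q.1 : ℝ) * (α * p))) *
        ((pw (n + N + 1) Q.1 j) ^ p * μ.real (Metric.closedBall (ctr n Q) (rad Q.1 j C')))
      ≤ ∑ k ∈ S.image Prod.fst, w ^ k * (A1 * ((1 / 2 : ℝ) ^ P.1) ^ e) := by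
    refine Finset.sum_le_sum fun k hk => ?_
    obtain ⟨Q, hQ, rfl⟩ := Finset.mem_image.1 hk
    exact hone _ (hlev Q hQ)
  refine h1.trans ?_
  rw [← Finset.sum_mul]
  have h2 : ∑ k ∈ S.image Prod.fst, w ^ k ≤ w ^ P.1 / (1 - w) := by
    have h3 : S.image Prod.fst ⊆ Finset.Ico P.1 ((S.image Prod.fst).sup id + 1) := by
      intro k hk
      rw [Finset.mem_Ico]
      constructor
      · obtain ⟨Q, hQ, rfl⟩ := Finset.mem_image.1 hk
        exact hlev Q hQ
      · exact Nat.lt_succ_of_le (Finset.le_sup (f := id) hk)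
    exact (Finset.sum_le_sum_of_subset_of_nonneg h3 fun _ _ _ => by positivity).trans
      (geom_sum_Ico_le_of_lt_one hw0.le hw1)
  have h4 : w ^ P.1 * ((1 / 2 : ℝ) ^ P.1) ^ e ≤ (2 : ℝ) ^ (-((P.1 : ℝ) * n)) := by
    rw [← hwk, one_div, inv_pow, Real.inv_rpow (by positivity), ← Real.rpow_natCast 2 P.1,
      ← Real.rpow_mul (by norm_num), ← Real.rpow_neg (by norm_num), ← Real.rpow_add (by norm_num)]
    refine Real.rpow_le_rpow_of_exponent_le (by norm_num) ?_
    have : (0 : ℝ) ≤ P.1 := Nat.cast_nonneg _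
    nlinarith
  calc (∑ k ∈ S.image Prod.fst, w ^ k) * (A1 * ((1 / 2 : ℝ) ^ P.1) ^ e)
      ≤ w ^ P.1 / (1 - w) * (A1 * ((1 / 2 : ℝ) ^ P.1) ^ e) :=
        mul_le_mul_of_nonneg_right h2 (by positivity)
    _ = A1 / (1 - w) * (w ^ P.1 * ((1 / 2 : ℝ) ^ P.1) ^ e) := by ring
    _ ≤ A1 / (1 - w) * (2 : ℝ) ^ (-((P.1 : ℝ) * n)) :=
        mul_le_mul_of_nonneg_left h4 (div_pos hA10 (by linarith)).le

end Pool.Agent.W238.BH
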